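import Pool.Agent.Helper98.EQ.Goals
import Mathlib

set_option autoImplicit false

namespace Pool.Agent.Helper15.EQ.SET

open Pool.Agent.Helper98.EQ

theorem coc (p : ℕ) [Fact p.Prime] (D : Type) [Group D] :
    Coc (A := AS p D) (D := D) cc := by
  intro d d' a
  show Multiplicative.toAdd (chi a.1 ⟨_, cc_mem (d * d') a⟩) =
    Multiplicative.toAdd (chi a.1 ⟨_, cc_mem d a⟩) +
      Multiplicative.toAdd (chi a.1 ⟨_, cc_mem d' (d⁻¹ • a)⟩)
  rw [← toAdd_mul, ← map_mul]
  congr 2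
  apply Subtype.ext
  show (Quotient.out a.2)⁻¹ * (d * d') * Quotient.out ((d * d')⁻¹ • a.2) =
    ((Quotient.out a.2)⁻¹ * d * Quotient.out (d⁻¹ • a.2)) *
      ((Quotient.out (d⁻¹ • a.2))⁻¹ * d' * Quotient.out (d'⁻¹ • (d⁻¹ • a.2)))
  rw [mul_inv_rev, mul_smul]
  group

theorem fixd (p : ℕ) [Fact p.Prime] (D : Type) [Group D] (a : AS p D) :
    ∃ d : D, d • a = a ∧ cc d a ≠ 0 := by
  obtain ⟨C, x⟩ := a
  have hp : 1 < Nat.card C.1 := by
    rw [C.2]
    exact (Fact.out : p.Prime).one_lt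
  have hfin : Finite C.1 := Nat.finite_of_card_ne_zero (by omega)
  have hnt : Nontrivial C.1 := Finite.one_lt_card_iff_nontrivial.1 hp
  obtain ⟨c, hc⟩ := exists_ne (1 : C.1)
  have hx : ((Quotient.out x : D) : D ⧸ C.1) = x := QuotientGroup.out_eq' x
  have hd : ((Quotient.out x : D) * (c : D) * (Quotient.out x : D)⁻¹) • x = x := by
    have h1 : ((Quotient.out x : D) * (c : D))⁻¹ * (Quotient.out x : D) = ((c⁻¹ : C.1) : D) := by
      rw [mul_inv_rev, inv_mul_cancel_right]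
      rfl
    calc ((Quotient.out x : D) * (c : D) * (Quotient.out x : D)⁻¹) • x
        = ((Quotient.out x : D) * (c : D) * (Quotient.out x : D)⁻¹) •
            ((Quotient.out x : D) : D ⧸ C.1) := by rw [hx]
      _ = (((Quotient.out x : D) * (c : D) * (Quotient.out x : D)⁻¹ * (Quotient.out x : D) : D) :
            D ⧸ C.1) := rfl
      _ = (((Quotient.out x : D) * (c : D) : D) : D ⧸ C.1) := by rw [inv_mul_cancel_right]
      _ = ((Quotient.out x : D) : D ⧸ C.1) := by
          refine QuotientGroup.eq.2 ?_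
          rw [h1]
          exact (c⁻¹ : C.1).2
      _ = x := hx
  refine ⟨(Quotient.out x : D) * (c : D) * (Quotient.out x : D)⁻¹, ?_, ?_⟩
  · rw [AS.smul_def]
    show (⟨C, _ • x⟩ : AS p D) = ⟨C, x⟩
    rw [hd]
  · have hd' : ((Quotient.out x : D) * (c : D) * (Quotient.out x : D)⁻¹)⁻¹ • x = x := by
      rw [inv_smul_eq_iff]
      exact hd.symm
    have h2 : (⟨_, cc_mem ((Quotient.out x : D) * (c : D) * (Quotient.out x : D)⁻¹)
        (⟨C, x⟩ : AS p D)⟩ : C.1) = c := by
      apply Subtype.ext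
      show (Quotient.out x)⁻¹ * ((Quotient.out x : D) * (c : D) * (Quotient.out x : D)⁻¹) *
        Quotient.out (((Quotient.out x : D) * (c : D) * (Quotient.out x : D)⁻¹)⁻¹ • x) = c
      rw [hd']
      group
    intro h0
    have h3 : Multiplicative.toAdd (chi C (⟨_, cc_mem ((Quotient.out x : D) * (c : D) *
        (Quotient.out x : D)⁻¹) (⟨C, x⟩ : AS p D)⟩ : C.1)) = 0 := h0
    rw [h2] at h3
    have h4 : chi C c = 1 := by
      rw [← toAdd_eq_zero]
      exact h3
    exact hc ((chi C).map_eq_one_iff.1 h4)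

theorem t : Pool.Agent.Helper98.EQ.S_SET := fun p _ D _ _ => ⟨coc p D, fixd p D⟩

end Pool.Agent.Helper15.EQ.SET
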